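import Mathlib

set_option autoImplicit false

/-!
# The Chebyshev polynomial `x ^ 2 - 2`: definitions
-/

namespace Pool.Agent.TFS3

abbrev Om : Type := AlgebraicClosure ℚ

abbrev Gal : Type := Om ≃ₐ[ℚ] Om

/-- the automorphisms fixing the roots of unity of order `2 ^ N` and the elements of `Z` -/
def HN (Z : Set Om) (N : ℕ) : Subgroup Gal where
  carrier := {τ | (∀ ξ : Om, ξ ^ 2 ^ N = 1 → τ ξ = ξ) ∧ ∀ z ∈ Z, τ z = z}
  mul_mem' := by
    rintro a b ⟨ha, ha'⟩ ⟨hb, hb'⟩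
    refine ⟨fun ξ h => ?_, fun z hz => ?_⟩
    · rw [AlgEquiv.mul_apply, hb ξ h, ha ξ h]
    · rw [AlgEquiv.mul_apply, hb' z hz, ha' z hz]
  one_mem' := ⟨fun _ _ => rfl, fun _ _ => rfl⟩
  inv_mem' := by
    rintro a ⟨ha, ha'⟩
    refine ⟨fun ξ h => ?_, fun z hz => ?_⟩
    · have h1 := ha ξ h
      calc a⁻¹ ξ = a⁻¹ (a ξ) := by rw [h1]
        _ = ξ := a.symm_apply_apply ξ
    · have h1 := ha' z hz
      calc a⁻¹ z = a⁻¹ (a z) := by rw [h1]
        _ = z := a.symm_apply_apply z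

theorem mem_HN {Z : Set Om} {N : ℕ} {τ : Gal} : τ ∈ HN Z N ↔
    (∀ ξ : Om, ξ ^ 2 ^ N = 1 → τ ξ = ξ) ∧ ∀ z ∈ Z, τ z = z := Iff.rfl

/-- the Chebyshev polynomial -/
def ff {A : Type*} [Field A] (x : A) : A := x ^ 2 - 2

/-- the index of the stabiliser of `w` -/
noncomputable def idx (Z : Set Om) (N : ℕ) (w : Om) : ℕ :=
  ((MulAction.stabilizer Gal w).subgroupOf (HN Z N)).index

end Pool.Agent.TFS3
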