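import Pool.Agent.TFS2.ChebA
import Pool.Agent.TFS3.Defs

set_option autoImplicit false

/-!
# The Chebyshev polynomial `x ^ 2 - 2`: rational preimages
-/

namespace Pool.Agent.TFS3

open Pool.Agent.TFS2

theorem ff_fun : (ff : ℚ → ℚ) = fun x : ℚ => x ^ 2 - 2 := rfl

theorem rat_pre_j (j : ℕ) (γ : ℚ) (h : γ ≠ 2 ∧ γ ≠ -2 ∧ γ ≠ 0 ∧ γ ≠ 1 ∧ γ ≠ -1) :
    ∃ M₀ : ℕ, ∀ M, M₀ ≤ M → ∀ t : ℚ, ff^[M] t ≠ ff^[j] γ := by
  rw [ff_fun]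
  obtain ⟨h2, h2', h0, h1, h1'⟩ := h
  set V := (fun x : ℚ => x ^ 2 - 2)^[j] γ with hV
  have hnot : ¬ ChebS V := by
    rw [hV, chebS_iter]
    rintro (h | h | h | h | h)
    · exact h0 h
    · exact h1 h
    · exact h1' h
    · exact h2 h
    · exact h2' h
  obtain ⟨m, hm⟩ := exists_nat_gt |V|
  refine ⟨V.den + m, fun s hs T hT => hnot ?_⟩
  rw [← hT, chebS_iter]
  have hden := cheb_iter_den T s
  rw [hT] at hden
  have hd1 : T.den = 1 := by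
    by_contra hne
    have h3 : 2 ≤ T.den := by
      have := T.den_pos
      omega
    have h4 : 2 ^ 2 ^ s ≤ T.den ^ 2 ^ s := Nat.pow_le_pow_left h3 _
    have h5 : s < 2 ^ s := Nat.lt_two_pow_self
    have h6 : 2 ^ s < 2 ^ 2 ^ s := Nat.lt_two_pow_self
    omega
  refine chebS_of_int hd1 ?_
  by_contra hlt
  have h7 := cheb_iter_grow (not_lt.mp hlt) s
  rw [hT] at h7
  have h8 : (m : ℚ) ≤ s := by
    have : m ≤ s := by omega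
    exact_mod_cast this
  linarith

theorem rat_pre (γ : ℚ) (h : γ ≠ 2 ∧ γ ≠ -2 ∧ γ ≠ 0 ∧ γ ≠ 1 ∧ γ ≠ -1) :
    ∃ M₀ : ℕ, ∀ M ≥ M₀, ∀ t : ℚ, ∀ j : ℕ, (j = 1 ∨ j = 2) → ff^[M] t ≠ ff^[j] γ := by
  obtain ⟨A, hA⟩ := rat_pre_j 1 γ h
  obtain ⟨B, hB⟩ := rat_pre_j 2 γ h
  refine ⟨max A B, fun M hM t j hj => ?_⟩
  rcases hj with rfl | rfl
  · exact hA M ((le_max_left _ _).trans hM) t
  · exact hB M ((le_max_right _ _).trans hM) t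

end Pool.Agent.TFS3
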